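import Pool.Agent.H523.ZG.Stm

set_option autoImplicit false

/-! # The mean square of the short character sums -/

namespace Pool.Agent.H887.ZG

open Polynomial Finset
open Pool.Agent.H523.FF (PL mem_PL card_PL)
open Pool.Agent.H523.CM (tot parseval_poly sum_units_inj mk_inj sum_unitsB tot_eq_card sum_periodic)
open Pool.Agent.H523 Pool.Agent.H523.ZG

open scoped Classical

variable {F : Type} [Field F] [Fintype F]

theorem hsum_eq (K : ℕ) (M : F[X]) (χ : MulChar (AdjoinRoot M) ℂ) :
    hsum K M χ = ∑ f ∈ PL F K, (((if IsCoprime f M then 1 else 0 : ℝ)) : ℂ) *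
      χ (AdjoinRoot.mk M f) := by
  unfold hsum
  refine sum_congr rfl fun f _ => ?_
  by_cases h : IsCoprime f M
  · rw [if_pos h, Complex.ofReal_one, one_mul]
  · rw [if_neg h, MulChar.map_nonunit _ (fun hu => h (RH.isUnit_mk_iff.mp hu)), mul_zero]

theorem hsum_zero {K : ℕ} {M : F[X]} (hM : M.Monic) (hK : M.natDegree ≤ K)
    {χ : MulChar (AdjoinRoot M) ℂ} (hχ : χ ≠ 1) : hsum K M χ = 0 := by
  have := RH.finite_adjoinRoot hM
  have _ : Fintype (AdjoinRoot M)ˣ := Fintype.ofFinite _
  unfold hsum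
  have h1 := sum_periodic hM hK (fun f => χ (AdjoinRoot.mk M f)) (by
    intro x y hxy
    show χ (AdjoinRoot.mk M x) = χ (AdjoinRoot.mk M y)
    rw [AdjoinRoot.mk_eq_mk.mpr hxy]) 0
  simp only [zero_add] at h1
  rw [h1]
  have h2 : ∑ b ∈ PL F M.natDegree, χ (AdjoinRoot.mk M b) = 0 := by
    have h3 := sum_unitsB hM (fun x => χ x)
    rw [RH.sum_units χ, if_neg hχ, sum_filter] at h3
    rw [h3]
    refine sum_congr rfl fun f _ => ?_
    by_cases h : IsCoprime f M
    · rw [if_pos h]
    · rw [if_neg h, MulChar.map_nonunit _ (fun hu => h (RH.isUnit_mk_iff.mp hu))]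
  rw [h2, mul_zero]

theorem main : S_D2 := by
  intro F _ _ K M _ hM
  have := RH.finite_adjoinRoot hM
  have _ : Fintype (AdjoinRoot M)ˣ := Fintype.ofFinite _
  rcases le_or_gt M.natDegree K with hK | hK
  · rw [sum_eq_zero]
    · positivity
    · intro χ hχ
      rw [hsum_zero hM hK (ne_of_mem_erase hχ), norm_zero]
      norm_num
  · have h1 := parseval_poly hM (PL F K) (fun f => if IsCoprime f M then (1:ℝ) else 0)
    rw [sum_units_inj hM (PL F K) (fun f => if IsCoprime f M then (1:ℝ) else 0) (by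
      intro f hf g hg hfg
      rw [mem_PL] at hf hg
      apply mk_inj hM _ hfg
      have h2 : ((K : ℕ) : WithBot ℕ) < M.degree := by
        rw [degree_eq_natDegree hM.ne_zero]
        exact_mod_cast hK
      exact lt_of_le_of_lt (degree_sub_le _ _) (max_lt (hf.trans h2) (hg.trans h2))) (by
      intro f _ hf
      by_contra h
      exact hf (if_neg h))] at h1
    calc ∑ χ ∈ (univ : Finset (MulChar (AdjoinRoot M) ℂ)).erase 1, ‖hsum K M χ‖ ^ 2
        ≤ ∑ χ : MulChar (AdjoinRoot M) ℂ, ‖hsum K M χ‖ ^ 2 :=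
          sum_le_sum_of_subset_of_nonneg (erase_subset _ _) fun _ _ _ => by positivity
      _ = (Nat.card (AdjoinRoot M)ˣ : ℝ) *
          ∑ f ∈ PL F K, (if IsCoprime f M then (1:ℝ) else 0) ^ 2 := by
          rw [← h1]
          exact sum_congr rfl fun χ _ => by rw [hsum_eq]
      _ ≤ (tot M : ℝ) * (Fintype.card F : ℝ) ^ K := by
          rw [← tot_eq_card hM]
          refine mul_le_mul_of_nonneg_left ?_ (Nat.cast_nonneg _)
          calc ∑ f ∈ PL F K, (if IsCoprime f M then (1:ℝ) else 0) ^ 2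
              ≤ ∑ f ∈ PL F K, (1:ℝ) := sum_le_sum fun f _ => by split_ifs <;> norm_num
            _ = (Fintype.card F : ℝ) ^ K := by
                rw [sum_const, nsmul_eq_mul, mul_one, card_PL]
                push_cast
                rfl

end Pool.Agent.H887.ZG
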